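import Pool.Graph.R_pool_sql_team_seeded_3997aac3.Results.MP_cc4f83_nt.LargeValuesAreRare

/-!
# Central values of newforms of prime level: mollifiers and the exponent three halves

Notation and averages are those of the library theorem `LargeValuesAreRare`: finite families `H_N` of
forms `f` with Hecke eigenvalues `λ_f(n)`, non-negative values `L_f`, weights `ω_f` and numbers `ℓ_f`, one
for every large prime `N`; for `H_2^+(N)`: `L_f = L(1/2, f)`, `ω_f = 1 / (2π⟨f, f⟩)`,
`ℓ_f = L(1, sym² f)`. We add two known facts for `H_2^+(N)`: the large sieve inequality and the mollifiers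
of Iwaniec and Sarnak. Normalised so that the average of `L_f M_f` is one, their coefficients `x_m` are
`O(log N)`, up to arithmetic factors which are bounded on average, so that `∑ x_m² / m = O((log N)³)`.

The main point: the second moment of the mollifier is `O((log N)³)`, by the large sieve inequality, and so the
values `L_f = o((log N)^(-3/2))` do not contribute to the mollified first moment.

This is a corrected version of `Pool.Agent.H50.CV.Bar` (helper50), which assumed the bound `O(log N)`.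
-/

set_option autoImplicit false

namespace Pool.Agent.H45.CV

open Filter Topology
open Pool.Agent.Results.MP_cc4f83_nt.LargeValuesAreRare

/-- The average of `X` over the forms `f` of the family (all forms with the same weight). -/
noncomputable def mean (H : Family) (X : H.Form → ℝ) : ℝ := (∑ f, X f) / Fintype.card H.Form

open Classical in
/-- The proportion of the forms `f` with `P f`. -/
noncomputable def share (H : Family) (P : H.Form → Prop) : ℝ :=
  (Fintype.card {f : H.Form // P f} : ℝ) / Fintype.card H.Form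

/-- The Dirichlet polynomial `M_f = ∑ x_m λ_f(m) / √m`, the sum over `m ≤ √N`. -/
noncomputable def poly (N : ℕ) (H : Family) (x : ℕ → ℝ) (f : H.Form) : ℝ :=
  ∑ m ∈ Finset.Icc 1 (Nat.sqrt N), x m * H.coeff f m / Real.sqrt m

/-- The large sieve inequality `∑ ω_f (∑ a_m λ_f(m))² ≤ B ∑ a_m²`, the inner sums over `m ≤ √N`. -/
def LargeSieve (B : ℝ) (N : ℕ) (H : Family) : Prop :=
  ∀ a : ℕ → ℝ, ∑ f, H.weight f * (∑ m ∈ Finset.Icc 1 (Nat.sqrt N), a m * H.coeff f m) ^ 2 ≤
    B * ∑ m ∈ Finset.Icc 1 (Nat.sqrt N), a m ^ 2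

/-- The polynomials `M_f` with the coefficients `x` are a mollifier with the error `δ`: the averages of
`L_f M_f` and `(L_f M_f)²` are `≥ 1 - δ` and `≤ 2 + δ`, and `∑ x_m² / m ≤ D (log N)³`, the sum over
`m ≤ √N`. -/
structure IsMollifier (δ D : ℝ) (N : ℕ) (H : Family) (x : ℕ → ℝ) : Prop where
  /-- the coefficients -/
  bound : ∑ m ∈ Finset.Icc 1 (Nat.sqrt N), x m ^ 2 / m ≤ D * Real.log N ^ 3
  /-- the first moment -/
  first : 1 - δ ≤ mean H fun f => H.value f * poly N H x f
  /-- the second moment -/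
  second : mean H (fun f => (H.value f * poly N H x f) ^ 2) ≤ 2 + δ

/-- The known facts: for all primes `N ≥ N₀` Hecke relations, averages and the large sieve inequality, and
for every `δ > 0` a number `D` and mollifiers with the error `δ` and the bound `D` for all large primes
`N`. -/
structure Known (c B : ℝ) (M : ℕ → ℝ) (N₀ : ℕ) (H : ℕ → Family) : Prop where
  /-- Hecke relations -/
  hecke : ∀ N : ℕ, N₀ ≤ N → N.Prime → HeckeFamily N (H N)
  /-- the averages over the families -/
  averages : ∀ N : ℕ, N₀ ≤ N → N.Prime → HasAverages c B M N (H N)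
  /-- the large sieve inequality -/
  sieve : ∀ N : ℕ, N₀ ≤ N → N.Prime → LargeSieve B N (H N)
  /-- the mollifiers -/
  mollifier : ∀ δ : ℝ, 0 < δ → ∃ D : ℝ, ∀ᶠ N : ℕ in primes, ∃ x, IsMollifier δ D N (H N) x

/-- **Question Q1** for the families: for some `A > 0` more than half of the values exceed
`(log N)^(-A)`, that is, the lower limit of their proportion is greater than `1/2`. -/
def Q1 (H : ℕ → Family) : Prop :=
  ∃ A : ℝ, 0 < A ∧ 1 / 2 < liminf (fun N : ℕ => proportion (H N) ((Real.log N) ^ (-A))) primes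

/-- The weaker question: more than half of the values are not zero. -/
def Q0 (H : ℕ → Family) : Prop := 1 / 2 < liminf (fun N : ℕ => proportion (H N) 0) primes

/-- Along `n k`, one half of the values are between `(log N)^(-3/2 - ε)` and `(log N)^(-1/2 + ε)`, for all
`ε > 0`. -/
def HalfBetween (H : ℕ → Family) (n : ℕ → ℕ) : Prop :=
  ∀ ε : ℝ, 0 < ε → Tendsto (fun k => share (H (n k)) fun f =>
    (Real.log (n k)) ^ (-(3 / 2) - ε) ≤ (H (n k)).value f ∧
      (H (n k)).value f ≤ (Real.log (n k)) ^ (-(1 / 2) + ε)) atTop (𝓝 (1 / 2))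

/-! ### Basic facts -/

section basic

variable {H : Family}

theorem mean_mono {X Y : H.Form → ℝ} (h : ∀ f, X f ≤ Y f) : mean H X ≤ mean H Y := by
  unfold mean
  exact div_le_div_of_nonneg_right (Finset.sum_le_sum fun f _ => h f) (by positivity)

theorem mean_add (X Y : H.Form → ℝ) : mean H (fun f => X f + Y f) = mean H X + mean H Y := by
  unfold mean
  rw [Finset.sum_add_distrib, add_div]

theorem mean_smul (a : ℝ) (X : H.Form → ℝ) : mean H (fun f => a * X f) = a * mean H X := by
  unfold mean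
  rw [← Finset.mul_sum, mul_div_assoc]

theorem mean_nonneg {X : H.Form → ℝ} (h : ∀ f, 0 ≤ X f) : 0 ≤ mean H X := by
  unfold mean
  exact div_nonneg (Finset.sum_nonneg fun f _ => h f) (by positivity)

open Classical in
theorem share_eq (P : H.Form → Prop) : share H P = mean H fun f => if P f then 1 else 0 := by
  unfold share mean
  rw [Fintype.card_subtype, Finset.sum_boole]

theorem proportion_eq (t : ℝ) : proportion H t = share H fun f => t < H.value f := by
  unfold proportion share
  rfl

theorem share_nonneg (P : H.Form → Prop) : 0 ≤ share H P := by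
  unfold share
  positivity

theorem share_le_one (P : H.Form → Prop) : share H P ≤ 1 := by
  classical
  unfold share
  refine div_le_one_of_le₀ ?_ (by positivity)
  exact_mod_cast Fintype.card_subtype_le P

theorem share_mono {P Q : H.Form → Prop} (h : ∀ f, P f → Q f) : share H P ≤ share H Q := by
  classical
  rw [share_eq, share_eq]
  refine mean_mono fun f => ?_
  by_cases hp : P f
  · rw [if_pos hp, if_pos (h f hp)]
  · rw [if_neg hp]
    split_ifs <;> norm_num

theorem mean_one (h : 0 < Fintype.card H.Form) : mean H (fun _ => 1) = 1 := by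
  unfold mean
  rw [Finset.sum_const, nsmul_eq_mul, mul_one, Finset.card_univ, div_self]
  exact_mod_cast h.ne'

theorem card_pos_of_share {P : H.Form → Prop} (h : 0 < share H P) : 0 < Fintype.card H.Form := by
  rcases Nat.eq_zero_or_pos (Fintype.card H.Form) with h0 | h0
  · unfold share at h
    rw [h0] at h
    simp at h
  · exact h0

/-- the complement -/
theorem share_compl {P Q : H.Form → Prop} (h : 0 < Fintype.card H.Form) (hPQ : ∀ f, Q f ↔ ¬ P f) :
    share H P + share H Q = 1 := by
  classical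
  rw [share_eq, share_eq, ← mean_add]
  have e : (fun f => (if P f then (1 : ℝ) else 0) + if Q f then 1 else 0) = fun _ => 1 := by
    funext f
    by_cases hp : P f
    · have hq : ¬ Q f := fun hq => (hPQ f).1 hq hp
      rw [if_pos hp, if_neg hq, add_zero]
    · rw [if_neg hp, if_pos ((hPQ f).2 hp), zero_add]
  rw [e]
  exact mean_one h

theorem share_or_le {P Q R : H.Form → Prop} (h : ∀ f, P f → Q f ∨ R f) :
    share H P ≤ share H Q + share H R := by
  classical
  rw [share_eq, share_eq, share_eq, ← mean_add]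
  refine mean_mono fun f => ?_
  by_cases hp : P f
  · rcases h f hp with hq | hr
    · rw [if_pos hp, if_pos hq]
      have : (0 : ℝ) ≤ if R f then 1 else 0 := by split_ifs <;> norm_num
      linarith
    · rw [if_pos hp, if_pos hr]
      have : (0 : ℝ) ≤ if Q f then 1 else 0 := by split_ifs <;> norm_num
      linarith
  · rw [if_neg hp]
    have h1 : (0 : ℝ) ≤ if Q f then 1 else 0 := by split_ifs <;> norm_num
    have h2 : (0 : ℝ) ≤ if R f then 1 else 0 := by split_ifs <;> norm_num
    linarith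

/-- Cauchy-Schwarz for the average -/
theorem mean_mul_sq (X Y : H.Form → ℝ) :
    mean H (fun f => X f * Y f) ^ 2 ≤ mean H (fun f => X f ^ 2) * mean H (fun f => Y f ^ 2) := by
  unfold mean
  rw [div_pow, div_mul_div_comm, ← sq]
  exact div_le_div_of_nonneg_right (Finset.sum_mul_sq_le_sq_mul_sq _ _ _) (by positivity)

end basic

/-! ### The mean of the mollifier -/

/-- the second moment of the mollifier -/
theorem poly_sq {D B : ℝ} {N : ℕ} {H : Family} {x : ℕ → ℝ} (hB : 0 ≤ B)
    (hs : LargeSieve B N H)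
    (hx : ∑ m ∈ Finset.Icc 1 (Nat.sqrt N), x m ^ 2 / m ≤ D * Real.log N ^ 3) :
    ∑ f, H.weight f * poly N H x f ^ 2 ≤ B * (D * Real.log N ^ 3) := by
  have h1 := hs fun m => x m / Real.sqrt m
  have e : ∀ f, poly N H x f = ∑ m ∈ Finset.Icc 1 (Nat.sqrt N), x m / Real.sqrt m * H.coeff f m := by
    intro f
    unfold poly
    exact Finset.sum_congr rfl fun m _ => by ring
  simp_rw [← e] at h1
  refine h1.trans (mul_le_mul_of_nonneg_left (le_trans (le_of_eq ?_) hx) hB)
  refine Finset.sum_congr rfl fun m _ => ?_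
  rw [div_pow, Real.sq_sqrt (Nat.cast_nonneg m)]

/-- the natural mean of the absolute value of the mollifier -/
theorem mean_poly {c D B : ℝ} {M : ℕ → ℝ} {N : ℕ} {H : Family} {x : ℕ → ℝ}
    (hB : 0 ≤ B) (hh : HeckeFamily N H) (ha : HasAverages c B M N H)
    (hs : LargeSieve B N H)
    (hx : ∑ m ∈ Finset.Icc 1 (Nat.sqrt N), x m ^ 2 / m ≤ D * Real.log N ^ 3) :
    (mean H fun f => |poly N H x f|) ^ 2 ≤ B ^ 3 * |M 2| * (D * Real.log N ^ 3) := by
  have hD : 0 ≤ D * Real.log N ^ 3 := le_trans (Finset.sum_nonneg fun m _ => by positivity) hx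
  rcases Nat.eq_zero_or_pos (Fintype.card H.Form) with h0 | h0
  · have e : mean H (fun f => |poly N H x f|) = 0 := by
      unfold mean
      rw [h0]
      simp
    rw [e]
    have h2 : 0 ≤ B ^ 3 * |M 2| * (D * Real.log N ^ 3) := by positivity
    simpa using h2
  have hc : (0 : ℝ) < Fintype.card H.Form := by exact_mod_cast h0
  have h1 : mean H (fun f => |poly N H x f|) ≤ B * ∑ f, (H.weight f * H.sym f) * |poly N H x f| := by
    unfold mean
    rw [div_le_iff₀ hc, Finset.mul_sum, Finset.sum_mul]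
    refine Finset.sum_le_sum fun f _ => ?_
    have h2 := mul_le_mul_of_nonneg_right (ha.weight_ge f) (abs_nonneg (poly N H x f))
    calc |poly N H x f| = 1 * |poly N H x f| := (one_mul _).symm
      _ ≤ _ := h2
      _ = _ := by ring
  have h3 : 0 ≤ mean H (fun f => |poly N H x f|) := mean_nonneg fun f => abs_nonneg _
  have h4 : (∑ f, (H.weight f * H.sym f) * |poly N H x f|) ^ 2 ≤
      |M 2| * (B * (D * Real.log N ^ 3)) := by
    have e : ∑ f, (H.weight f * H.sym f) * |poly N H x f| =
        ∑ f, (Real.sqrt (H.weight f) * H.sym f) * (Real.sqrt (H.weight f) * |poly N H x f|) := by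
      refine Finset.sum_congr rfl fun f _ => ?_
      have := Real.mul_self_sqrt (hh.weight_nonneg f)
      calc (H.weight f * H.sym f) * |poly N H x f|
          = (Real.sqrt (H.weight f) * Real.sqrt (H.weight f) * H.sym f) * |poly N H x f| := by
            rw [this]
        _ = _ := by ring
    rw [e]
    refine (Finset.sum_mul_sq_le_sq_mul_sq _ _ _).trans ?_
    refine mul_le_mul ?_ ?_ (Finset.sum_nonneg fun f _ => sq_nonneg _) (abs_nonneg _)
    · calc ∑ f, (Real.sqrt (H.weight f) * H.sym f) ^ 2 = ∑ f, H.weight f * H.sym f ^ 2 := by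
            refine Finset.sum_congr rfl fun f _ => ?_
            rw [mul_pow, Real.sq_sqrt (hh.weight_nonneg f)]
        _ ≤ M 2 := ha.sym_moment 2
        _ ≤ |M 2| := le_abs_self _
    · calc ∑ f, (Real.sqrt (H.weight f) * |poly N H x f|) ^ 2
            = ∑ f, H.weight f * poly N H x f ^ 2 := by
            refine Finset.sum_congr rfl fun f _ => ?_
            rw [mul_pow, Real.sq_sqrt (hh.weight_nonneg f), sq_abs]
        _ ≤ _ := poly_sq hB hs hx
  calc (mean H fun f => |poly N H x f|) ^ 2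
      ≤ (B * ∑ f, (H.weight f * H.sym f) * |poly N H x f|) ^ 2 := pow_le_pow_left₀ h3 h1 2
    _ = B ^ 2 * (∑ f, (H.weight f * H.sym f) * |poly N H x f|) ^ 2 := by ring
    _ ≤ B ^ 2 * (|M 2| * (B * (D * Real.log N ^ 3))) :=
        mul_le_mul_of_nonneg_left h4 (sq_nonneg _)
    _ = _ := by ring

/-! ### One family -/

section one

open Classical in
/-- the splitting of the first moment -/
theorem first_le {δ D η T : ℝ} {N : ℕ} {H : Family} {x : ℕ → ℝ} (hm : IsMollifier δ D N H x)
    (hT : mean H (fun f => |poly N H x f|) * T ≤ η) (hT0 : 0 ≤ T) (hv : ∀ f, 0 ≤ H.value f) :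
    1 - δ - η ≤ mean H fun f => (if T < H.value f then (1 : ℝ) else 0) *
      (H.value f * poly N H x f) := by
  have h1 : mean H (fun f => H.value f * poly N H x f) ≤
      mean H (fun f => (if T < H.value f then (1 : ℝ) else 0) * (H.value f * poly N H x f)) +
        mean H (fun f => T * |poly N H x f|) := by
    rw [← mean_add]
    refine mean_mono fun f => ?_
    by_cases h : T < H.value f
    · rw [if_pos h, one_mul]
      have : 0 ≤ T * |poly N H x f| := mul_nonneg hT0 (abs_nonneg _)
      linarith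
    · rw [if_neg h, zero_mul, zero_add]
      calc H.value f * poly N H x f ≤ H.value f * |poly N H x f| :=
            mul_le_mul_of_nonneg_left (le_abs_self _) (hv f)
        _ ≤ T * |poly N H x f| := mul_le_mul_of_nonneg_right (not_lt.1 h) (abs_nonneg _)
  rw [mean_smul] at h1
  have h2 := hm.first
  linarith [mul_comm (mean H fun f => |poly N H x f|) T]

theorem share_ge {δ D η T : ℝ} {N : ℕ} {H : Family} {x : ℕ → ℝ} (hm : IsMollifier δ D N H x)
    (hT : mean H (fun f => |poly N H x f|) * T ≤ η) (hT0 : 0 ≤ T) (hv : ∀ f, 0 ≤ H.value f)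
    (h0 : 0 ≤ 1 - δ - η) : (1 - δ - η) ^ 2 ≤ proportion H T * (2 + δ) := by
  classical
  have h1 := first_le hm hT hT0 hv
  have h2 := mean_mul_sq (H := H) (fun f => if T < H.value f then (1 : ℝ) else 0)
    (fun f => H.value f * poly N H x f)
  have h3 : mean H (fun f => (if T < H.value f then (1 : ℝ) else 0) ^ 2) = proportion H T := by
    rw [proportion_eq, share_eq]
    congr 1
    funext f
    split_ifs <;> norm_num
  rw [h3] at h2
  calc (1 - δ - η) ^ 2 ≤ _ := pow_le_pow_left₀ h0 h1 2
    _ ≤ _ := h2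
    _ ≤ proportion H T * (2 + δ) := by
      refine mul_le_mul_of_nonneg_left hm.second ?_
      rw [proportion_eq]
      exact share_nonneg _

open Classical in
theorem law_le {δ D η T : ℝ} {N : ℕ} {H : Family} {x : ℕ → ℝ} (hm : IsMollifier δ D N H x)
    (hT : mean H (fun f => |poly N H x f|) * T ≤ η) (hT0 : 0 ≤ T) (hv : ∀ f, 0 ≤ H.value f) :
    mean H (fun f => (H.value f * poly N H x f - if T < H.value f then 2 else 0) ^ 2) ≤
      5 * δ + 4 * η + 4 * (proportion H T - 1 / 2) := by
  have h1 := first_le hm hT hT0 hv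
  have e : (fun f => (H.value f * poly N H x f - if T < H.value f then 2 else 0) ^ 2) =
      fun f => ((H.value f * poly N H x f) ^ 2 + (-4) * ((if T < H.value f then (1 : ℝ) else 0) *
        (H.value f * poly N H x f))) + 4 * (if T < H.value f then (1 : ℝ) else 0) := by
    funext f
    split_ifs <;> ring
  have h4 : mean H (fun f => if T < H.value f then (1 : ℝ) else 0) = proportion H T := by
    rw [proportion_eq, share_eq]
  rw [e, mean_add, mean_add, mean_smul, mean_smul, h4]
  have h2 := hm.second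
  linarith

end one

/-! ### All levels -/

section levels

variable {c B : ℝ} {M : ℕ → ℝ} {N₀ : ℕ} {H : ℕ → Family}

theorem ev_primes {P : ℕ → Prop} (h : ∀ᶠ N in atTop, N.Prime → P N) : ∀ᶠ N in primes, P N := by
  unfold primes
  rw [eventually_inf_principal]
  exact h

theorem tlog : Tendsto (fun N : ℕ => Real.log N) primes atTop :=
  (Real.tendsto_log_atTop.comp tendsto_natCast_atTop_atTop).mono_left inf_le_left

theorem ev_known (hK : Known c B M N₀ H) : ∀ᶠ N in primes, 3 ≤ N ∧ HeckeFamily N (H N) ∧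
    HasAverages c B M N (H N) ∧ LargeSieve B N (H N) := by
  refine ev_primes ?_
  filter_upwards [eventually_ge_atTop N₀, eventually_ge_atTop 3] with N h1 h2 h3
  exact ⟨h2, hK.hecke N h1 h3, hK.averages N h1 h3, hK.sieve N h1 h3⟩

theorem B_nonneg (hc : 0 < c) (hK : Known c B M N₀ H) : 0 ≤ B := by
  obtain ⟨N, hN1, hN2⟩ := Nat.exists_infinite_primes N₀
  have h1 := (hK.averages N hN1 hN2).average_coeff 1 one_pos (by
    rw [Nat.cast_one]
    exact Real.one_le_rpow (by exact_mod_cast hN2.one_le) hc.le)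
  have h2 := (abs_nonneg _).trans h1
  have h3 : 0 < (N : ℝ) ^ (-c) := Real.rpow_pos_of_pos (by exact_mod_cast hN2.pos) _
  exact nonneg_of_mul_nonneg_left h2 h3

/-- the contribution of the small values to the first moment -/
theorem tail (hc : 0 < c) (hK : Known c B M N₀ H) (D : ℝ) {η : ℝ} (hη : 0 < η) :
    ∃ κ : ℝ, 0 < κ ∧ ∀ᶠ N : ℕ in primes, ∀ δ x, IsMollifier δ D N (H N) x →
      ∀ T, 0 ≤ T → T * Real.sqrt (Real.log N ^ 3) ≤ κ →
      mean (H N) (fun f => |poly N (H N) x f|) * T ≤ η := by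
  have hB := B_nonneg hc hK
  set C : ℝ := B ^ 3 * |M 2| * |D| + 1 with hC
  have hC0 : 0 < C := by positivity
  refine ⟨η / Real.sqrt C, div_pos hη (Real.sqrt_pos.2 hC0), ?_⟩
  filter_upwards [ev_known hK, tlog.eventually_ge_atTop 1] with N h1 h3 δ x hx T hT0 hT
  obtain ⟨hN, hh, ha, hs⟩ := h1
  have h4 := mean_poly hB hh ha hs hx.bound
  set y : ℝ := Real.log N ^ 3 with hy
  have hy0 : 0 < y := pow_pos (by linarith) 3
  have h5 : 0 ≤ mean (H N) (fun f => |poly N (H N) x f|) := mean_nonneg fun f => abs_nonneg _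
  have h6 : (mean (H N) (fun f => |poly N (H N) x f|) * T) ^ 2 ≤ η ^ 2 := by
    rw [mul_pow]
    have h7 : (T * Real.sqrt y) ^ 2 ≤ (η / Real.sqrt C) ^ 2 :=
      pow_le_pow_left₀ (mul_nonneg hT0 (Real.sqrt_nonneg _)) hT 2
    rw [mul_pow, Real.sq_sqrt hy0.le, div_pow, Real.sq_sqrt hC0.le] at h7
    have h8 : B ^ 3 * |M 2| * (D * y) ≤ C * y := by
      have : B ^ 3 * |M 2| * (D * y) ≤ B ^ 3 * |M 2| * (|D| * y) :=
        mul_le_mul_of_nonneg_left (mul_le_mul_of_nonneg_right (le_abs_self D) hy0.le) (by positivity)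
      rw [hC]
      nlinarith
    calc _ ≤ (C * y) * T ^ 2 := mul_le_mul_of_nonneg_right (h4.trans h8) (sq_nonneg _)
      _ = C * (T ^ 2 * y) := by ring
      _ ≤ C * (η ^ 2 / C) := mul_le_mul_of_nonneg_left h7 hC0.le
      _ = η ^ 2 := by field_simp
  exact (pow_le_pow_iff_left₀ (mul_nonneg h5 hT0) hη.le two_ne_zero).1 h6

/-- **Nearly half of the values exceed `κ (log N)^(-3/2)`.** -/
theorem low (hc : 0 < c) (hK : Known c B M N₀ H) {η : ℝ} (hη : 0 < η) :
    ∃ κ : ℝ, 0 < κ ∧ ∀ᶠ N : ℕ in primes, ∀ T, 0 ≤ T → T * Real.sqrt (Real.log N ^ 3) ≤ κ →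
      1 / 2 - η ≤ proportion (H N) T := by
  set s : ℝ := min (η / 3) (1 / 2) with hs
  have hs0 : 0 < s := lt_min (by linarith) (by norm_num)
  have hs1 : s ≤ η / 3 := min_le_left _ _
  have hs3 : s ≤ 1 / 2 := min_le_right _ _
  obtain ⟨D, hD⟩ := hK.mollifier s hs0
  obtain ⟨κ, hκ, h⟩ := tail hc hK D hs0
  refine ⟨κ, hκ, ?_⟩
  filter_upwards [ev_known hK, hD, h] with N h1 h2 h3 T hT0 hT
  obtain ⟨x, hx⟩ := h2
  have h4 := share_ge hx (h3 s x hx T hT0 hT) hT0 h1.2.1.value_nonneg (by linarith)
  have h5 : (1 / 2 - η) * (2 + s) ≤ proportion (H N) T * (2 + s) := by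
    refine le_trans ?_ h4
    nlinarith [mul_pos hη hs0]
  exact le_of_mul_le_mul_right h5 (by linarith)

/-- small thresholds -/
theorem small_pow {A : ℝ} (hA : 3 / 2 < A) :
    Tendsto (fun N : ℕ => (Real.log N) ^ (-A) * Real.sqrt (Real.log N ^ 3)) primes (𝓝 0) := by
  have t1 : Tendsto (fun N : ℕ => (Real.log N) ^ (-(A - 3 / 2))) primes (𝓝 0) :=
    (tendsto_rpow_neg_atTop (by linarith)).comp tlog
  refine t1.congr' ?_
  filter_upwards [tlog.eventually_ge_atTop 1] with N hN
  have hy0 : 0 < Real.log N := by linarith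
  rw [Real.sqrt_eq_rpow, ← Real.rpow_natCast (Real.log N) 3, ← Real.rpow_mul hy0.le,
    ← Real.rpow_add hy0]
  congr 1
  push_cast
  ring

/-- the threshold `κ (log N)^(-3/2)` -/
theorem thr {y κ : ℝ} (hy : 0 < y) : κ * y ^ (-(3 / 2) : ℝ) * Real.sqrt (y ^ 3) = κ := by
  rw [Real.sqrt_eq_rpow, ← Real.rpow_natCast y 3, ← Real.rpow_mul hy.le, mul_assoc,
    ← Real.rpow_add hy]
  norm_num

/-- nearly half of the values exceed small thresholds -/
theorem low_seq (hc : 0 < c) (hK : Known c B M N₀ H) {ι : Type} {F : Filter ι} {n : ι → ℕ}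
    (hn : Tendsto n F primes) {T : ι → ℝ} (hT0 : ∀ᶠ k in F, 0 ≤ T k)
    (hT : Tendsto (fun k => T k * Real.sqrt (Real.log (n k) ^ 3)) F (𝓝 0)) {η : ℝ} (hη : 0 < η) :
    ∀ᶠ k in F, 1 / 2 - η ≤ proportion (H (n k)) (T k) := by
  obtain ⟨κ, hκ, h⟩ := low hc hK hη
  filter_upwards [hn.eventually h, hT0, hT.eventually_lt_const hκ] with k h1 h2 h3
  exact h1 (T k) h2 h3.le

/-- the powers as thresholds -/
theorem pow_nonneg' {ι : Type} {F : Filter ι} {n : ι → ℕ} (hn : Tendsto n F primes) (A : ℝ) :
    ∀ᶠ k in F, 0 ≤ (Real.log (n k)) ^ (-A) := by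
  filter_upwards [(tlog.comp hn).eventually_ge_atTop 1] with k hk
  exact Real.rpow_nonneg (by simpa using (zero_le_one.trans hk)) _

/-- **Few values exceed `(log N)^(-1/2+ε)`** (library). -/
theorem up (hc : 0 < c) (hK : Known c B M N₀ H) {ε : ℝ} (hε : 0 < ε) :
    Tendsto (fun N : ℕ => proportion (H N) ((Real.log N) ^ (-(1 / 2) + ε))) primes (𝓝 0) := by
  have h := (Pool.Agent.Results.MP_cc4f83_nt.LargeValuesAreRare.result H c B M hc N₀ fun N h1 h2 =>
    ⟨hK.hecke N h1 h2, hK.averages N h1 h2⟩).2.1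
  set e : ℝ := min ε (1 / 4) with he
  have he0 : 0 < e := lt_min hε (by norm_num)
  have he1 : e ≤ ε := min_le_left _ _
  have he2 : e ≤ 1 / 4 := min_le_right _ _
  refine squeeze_zero' (Eventually.of_forall fun N => ?_) ?_ (h (1 / 2 - e) (by linarith) (by linarith))
  · rw [proportion_eq]
    exact share_nonneg _
  · filter_upwards [tlog.eventually_ge_atTop 1] with N hN
    rw [proportion_eq, proportion_eq]
    refine share_mono fun f hf => lt_of_le_of_lt ?_ hf
    exact Real.rpow_le_rpow_of_exponent_le hN (by linarith)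

theorem proportion_nonneg (K : Family) (t : ℝ) : 0 ≤ proportion K t := by
  rw [proportion_eq]
  exact share_nonneg _

theorem proportion_le_one (K : Family) (t : ℝ) : proportion K t ≤ 1 := by
  rw [proportion_eq]
  exact share_le_one _

theorem proportion_anti (K : Family) {s t : ℝ} (h : s ≤ t) : proportion K t ≤ proportion K s := by
  rw [proportion_eq, proportion_eq]
  exact share_mono fun f hf => lt_of_le_of_lt h hf

/-- the middle band -/
def Band (N : ℕ) (K : Family) (ε : ℝ) (f : K.Form) : Prop :=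
  (Real.log N) ^ (-(3 / 2) - ε) ≤ K.value f ∧ K.value f ≤ (Real.log N) ^ (-(1 / 2) + ε)

/-- if one half of the values exceed `T`, then one half of the values are in the middle band -/
theorem half_band (hc : 0 < c) (hK : Known c B M N₀ H)
    {n : ℕ → ℕ} (hn : Tendsto n atTop primes) {T : ℕ → ℝ} {ε : ℝ} (hε : 0 < ε)
    (hT : ∀ᶠ k in atTop, T k < (Real.log (n k)) ^ (-(3 / 2) - ε))
    (hp : Tendsto (fun k => proportion (H (n k)) (T k)) atTop (𝓝 (1 / 2))) :
    Tendsto (fun k => share (H (n k)) (Band (n k) (H (n k)) ε)) atTop (𝓝 (1 / 2)) := by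
  have hup := (up hc hK hε).comp hn
  rw [Metric.tendsto_atTop]
  intro η hη
  rw [← eventually_atTop]
  have h1 := low_seq hc hK hn (pow_nonneg' hn (3 / 2 + ε)) ((small_pow (by linarith)).comp hn)
    (by linarith : 0 < η / 4)
  have h2 : ∀ᶠ k in atTop, proportion (H (n k)) (T k) < 1 / 2 + η / 2 :=
    hp.eventually_lt_const (by linarith)
  have h3 : ∀ᶠ k in atTop, proportion (H (n k)) ((Real.log (n k)) ^ (-(1 / 2) + ε)) < η / 4 :=
    hup.eventually_lt_const (by linarith)
  filter_upwards [h1, h2, h3, hT] with k a1 a2 a3 hlt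
  have b1 : share (H (n k)) (Band (n k) (H (n k)) ε) ≤ proportion (H (n k)) (T k) := by
    rw [proportion_eq]
    exact share_mono fun f hf => lt_of_lt_of_le hlt hf.1
  rw [show -(3 / 2 + ε) = -(3 / 2) - ε by ring] at a1
  have b3 : proportion (H (n k)) ((Real.log (n k)) ^ (-(3 / 2) - ε)) ≤
      share (H (n k)) (Band (n k) (H (n k)) ε) +
        proportion (H (n k)) ((Real.log (n k)) ^ (-(1 / 2) + ε)) := by
    rw [proportion_eq, proportion_eq]
    refine share_or_le fun f hf => ?_
    rcases le_or_gt ((H (n k)).value f) ((Real.log (n k)) ^ (-(1 / 2) + ε)) with h | h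
    · exact Or.inl ⟨hf.le, h⟩
    · exact Or.inr h
  rw [Real.dist_eq, abs_lt]
  constructor <;> linarith

instance : NeBot primes := by
  unfold primes
  rw [← frequently_mem_iff_neBot]
  exact Nat.frequently_atTop_iff_infinite.2 Nat.infinite_setOfPred_prime

theorem cobdd (g : ℕ → ℝ) (hg : ∀ N, g N ≤ 1) : IsCoboundedUnder (· ≥ ·) primes g :=
  (isBoundedUnder_of ⟨1, hg⟩ : IsBoundedUnder (· ≤ ·) primes g).isCoboundedUnder_ge

theorem bdd (g : ℕ → ℝ) (hg : ∀ N, 0 ≤ g N) : IsBoundedUnder (· ≥ ·) primes g :=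
  isBoundedUnder_of ⟨0, hg⟩

/-- the liminf is at least one half -/
theorem liminf_ge (hc : 0 < c) (hK : Known c B M N₀ H) {A : ℝ} (hA : 3 / 2 < A) :
    1 / 2 ≤ liminf (fun N : ℕ => proportion (H N) ((Real.log N) ^ (-A))) primes := by
  refine le_of_forall_lt_imp_le_of_dense fun a ha => ?_
  refine le_liminf_of_le (cobdd _ fun N => proportion_le_one _ _) ?_
  filter_upwards [low_seq hc hK (F := primes) tendsto_id (pow_nonneg' tendsto_id A) (small_pow hA)
    (by linarith : 0 < 1 / 2 - a)] with N h1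
  simp only [id] at h1
  linarith

/-- a sequence of primes along which the proportions are at most one half, from the liminf -/
theorem exists_seq (g : ℕ → ℕ → ℝ) (h1 : ∀ j N, g j N ≤ 1)
    (h : ∀ j, liminf (g j) primes ≤ 1 / 2) :
    ∃ n : ℕ → ℕ, Tendsto n atTop primes ∧ ∀ k : ℕ, g k (n k) ≤ 1 / 2 + 1 / ((k : ℝ) + 1) := by
  have h2 : ∀ k : ℕ, ∃ N : ℕ, k ≤ N ∧ N.Prime ∧ g k N ≤ 1 / 2 + 1 / ((k : ℝ) + 1) := by
    intro k
    have hpos : (0 : ℝ) < 1 / ((k : ℝ) + 1) := by positivity
    have h3 : ∃ᶠ N in primes, g k N < 1 / 2 + 1 / ((k : ℝ) + 1) :=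
      frequently_lt_of_liminf_lt (cobdd (g k) (h1 k)) ((h k).trans_lt (by linarith))
    have h4 : ∀ᶠ N : ℕ in primes, k ≤ N ∧ N.Prime := by
      refine ev_primes ?_
      filter_upwards [eventually_ge_atTop k] with N hN hp
      exact ⟨hN, hp⟩
    obtain ⟨N, h5, h6⟩ := (h3.and_eventually h4).exists
    exact ⟨N, h6.1, h6.2, h5.le⟩
  choose n hn1 hn2 hn3 using h2
  refine ⟨n, ?_, hn3⟩
  unfold primes
  rw [tendsto_inf]
  refine ⟨tendsto_atTop_mono hn1 tendsto_id, ?_⟩
  rw [tendsto_principal]
  exact Eventually.of_forall hn2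

/-- a sequence of primes along which the limit is one half gives the bound for the liminf -/
theorem liminf_le_half {g : ℕ → ℝ} (h0 : ∀ N, 0 ≤ g N) {n : ℕ → ℕ} (hn : Tendsto n atTop primes)
    {u : ℕ → ℝ} (hu : Tendsto u atTop (𝓝 (1 / 2))) (hgu : ∀ᶠ k in atTop, g (n k) ≤ u k) :
    liminf g primes ≤ 1 / 2 := by
  by_contra hlt
  push Not at hlt
  obtain ⟨a, ha1, ha2⟩ := exists_between hlt
  have h1 := hn.eventually (eventually_lt_of_lt_liminf ha2 (bdd g h0))
  have h2 := hu.eventually_lt_const ha1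
  obtain ⟨k, h3, h4, h5⟩ := (h1.and (h2.and hgu)).exists
  linarith

/-- the proportion tends to one half -/
theorem tendsto_half (hc : 0 < c) (hK : Known c B M N₀ H) {n : ℕ → ℕ} (hn : Tendsto n atTop primes)
    {T : ℕ → ℝ} (hT0 : ∀ᶠ k in atTop, 0 ≤ T k)
    (hT : Tendsto (fun k => T k * Real.sqrt (Real.log (n k) ^ 3)) atTop (𝓝 0)) {u : ℕ → ℝ}
    (hu : Tendsto u atTop (𝓝 (1 / 2))) (hpu : ∀ᶠ k in atTop, proportion (H (n k)) (T k) ≤ u k) :
    Tendsto (fun k => proportion (H (n k)) (T k)) atTop (𝓝 (1 / 2)) := by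
  rw [Metric.tendsto_atTop]
  intro η hη
  rw [← eventually_atTop]
  filter_upwards [low_seq hc hK hn hT0 hT (half_pos hη), hpu,
    hu.eventually_lt_const (show 1 / 2 < 1 / 2 + η by linarith)] with k h5 h3 h4
  rw [Real.dist_eq, abs_lt]
  constructor <;> linarith

theorem tendsto_one_div : Tendsto (fun k : ℕ => 1 / 2 + 1 / ((k : ℝ) + 1)) atTop (𝓝 (1 / 2)) := by
  have := (tendsto_one_div_add_atTop_nhds_zero_nat (𝕜 := ℝ)).const_add (1 / 2)
  rwa [add_zero] at this

/-- the share of the complement -/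
theorem tendsto_compl {n : ℕ → ℕ} {T : ℕ → ℝ} {P : ∀ k, (H (n k)).Form → Prop}
    (hp : Tendsto (fun k => proportion (H (n k)) (T k)) atTop (𝓝 (1 / 2)))
    (hP : ∀ᶠ k in atTop, ∀ f, P k f ↔ ¬ T k < (H (n k)).value f) :
    Tendsto (fun k => share (H (n k)) (P k)) atTop (𝓝 (1 / 2)) := by
  have h1 : Tendsto (fun k => 1 - proportion (H (n k)) (T k)) atTop (𝓝 (1 - 1 / 2)) :=
    hp.const_sub 1
  rw [show (1 : ℝ) - 1 / 2 = 1 / 2 by norm_num] at h1
  refine h1.congr' ?_
  filter_upwards [hP, hp.eventually_const_lt (show (0 : ℝ) < 1 / 2 by norm_num)] with k h2 h3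
  rw [proportion_eq] at h3 ⊢
  have := share_compl (card_pos_of_share h3) h2
  linarith

theorem add_le_one {K : Family} {T : ℝ} {P : K.Form → Prop} (hP : ∀ f, P f → ¬ T < K.value f) :
    proportion K T ≤ 1 - share K P := by
  rw [proportion_eq]
  rcases Nat.eq_zero_or_pos (Fintype.card K.Form) with h0 | h0
  · unfold share
    rw [h0]
    simp
  · have h1 := share_compl (P := P) (Q := fun f => ¬ P f) h0 fun f => Iff.rfl
    have h2 : share K (fun f => T < K.value f) ≤ share K fun f => ¬ P f :=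
      share_mono fun f hf hPf => hP f hPf hf
    linarith

end levels

end Pool.Agent.H45.CV
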